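import Pool.Agent.H207.BT.Stm2
import Pool.Agent.H230.HY211.SAME

/-!
# Project BT (helper207), S_WRF: the factorisation in homogeneous coordinates (helper928)

The proof is `fac_hom` of `Pool/Agent/H230/HY211/SAME.lean`.
-/

set_option autoImplicit false

open Topology Filter Metric Set MeasureTheory

namespace Pool.Agent.H928.BT207

open Pool.Agent.H790R3.RB Pool.Agent.H211.HY

theorem t_WRF : Pool.Agent.H207.BT.S_WRF := by
  intro d k x m c hd hdeg hfac p
  exact Pool.Agent.H230.HY211.fac_hom x m c hd hdeg hfac p

end Pool.Agent.H928.BT207
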