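import Pool.Agent.H207.BT.Stm6
import Pool.Agent.H345.HY211.NORM4

/-!
# Normalisation for all combinatorial types, with the rate (helper928)
(adaptation of `Pool/Agent/H813/BT207/NORM5.lean` and `Pool/Agent/H345/HY211/NORM4.lean`)
-/

set_option autoImplicit false

open Topology Filter Metric Set MeasureTheory Polynomial

namespace Pool.Agent.H928.BT207

open Pool.Agent.H790R3.RB Pool.Agent.H790R3.RB.ALL Pool.Agent.H211.HY Pool.Agent.H922.HY211
  Pool.Agent.H345.HY211 Pool.Agent.H207.BT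

theorem t_NORM5T : Pool.Agent.H207.BT.S_NORM5T := by
  intro d x hX hyp'
  have hd := hX.hd
  obtain ⟨t, ht⟩ := avoid x hd hX.ce
  obtain ⟨cj, hcd, -, -, -, hcj⟩ := CJ d
  have hdet : (1 : ℂ) * 1 - 0 * t = 1 := by ring
  have hdet' : (1 : ℂ) * 1 - 0 * (-t) = 1 := by ring
  set m : (ℂ × ℂ) × (ℂ × ℂ) := ((1, 0), (t, 1)) with hm
  set mi : (ℂ × ℂ) × (ℂ × ℂ) := ((1, 0), (-t, 1)) with hmi
  set y : CV d := cj m x with hy
  have hR1 : Rel 1 0 t 1 x y := fun p => by rw [hy, hcj m x p]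
  have hR2 : ∀ z : CV d, Rel 1 0 (-t) 1 z (cj mi z) := fun z p => by rw [hcj mi z p]
  have hNDy : ND y := nd_of_rel hdet hR1 hX.nd
  have hback : cj mi y = x := by
    apply hF_inj
    intro p
    rw [hR2 y p]
    have e1 := rel_apply hdet hR1 p
    have e2 : ((1 * p.1 - 0 * p.2, 1 * p.2 - -t * p.1) : ℂ × ℂ) =
        (1 * p.1 + 0 * p.2, t * p.1 + 1 * p.2) := by
      refine Prod.ext ?_ ?_
      · change 1 * p.1 - 0 * p.2 = 1 * p.1 + 0 * p.2
        ring
      · change 1 * p.2 - -t * p.1 = t * p.1 + 1 * p.2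
        ring
    rw [e2, e1]
    refine Prod.ext ?_ ?_
    · change 1 * (1 * (hF x p).1 + 0 * (hF x p).2) +
        0 * (t * (hF x p).1 + 1 * (hF x p).2) = (hF x p).1
      ring
    · change -t * (1 * (hF x p).1 + 0 * (hF x p).2) +
        1 * (t * (hF x p).1 + 1 * (hF x p).2) = (hF x p).2
      ring
  -- the hypotheses for `y`
  have hHy : Hyp0 y := ⟨hd, hNDy, CE_L hd hX.nd hdet hR1 hX.ce, fun hL =>
    hX.lat (Lat_L hd hdet hR1 hL)⟩
  have hNy2 : ∀ c : ℂ × ℂ, c ≠ 0 → wr y c = 0 → ∀ n : ℕ, ((hF y)^[n] c).2 ≠ 0 := by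
    intro q hq hw n
    obtain ⟨p, hp, rfl⟩ := L_surj hdet hq
    rw [wr_L hd hdet hR1] at hw
    rw [hF_iter_L hdet hR1]
    change t * ((hF x)^[n] p).1 + 1 * ((hF x)^[n] p).2 ≠ 0
    rw [one_mul]
    exact ht p hp hw hX.nd n
  have hNy : Nrm y := ⟨fun h => hNy2 (1, 0) (by simp) h 0 rfl, hNy2⟩
  -- the conjugation is Lipschitz near `y`
  have hcd1 : ContDiffAt ℂ 1 (fun z : CV d => cj mi z) y :=
    (hcd.comp (contDiff_const.prodMk contDiff_id)).contDiffAt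
  obtain ⟨Kl, s, hs, hlip⟩ := hcd1.exists_lipschitzOnWith
  obtain ⟨δ, hδ, hball⟩ := Metric.mem_nhds_iff.1 hs
  obtain ⟨K, hK, hKc⟩ := cho_bd hdet'
  have hK0 : 0 < K := by linarith
  obtain ⟨k, c₀, mm, a, ha, hmm, hc0, hcr, hwr, hall⟩ := hyp' y hHy hNy
  refine ⟨k, fun i => L 1 0 (-t) 1 (c₀ i), mm, a, ha, hmm, fun i => L_ne hdet' (hc0 i),
    fun i j hij => ?_, fun q => ?_, fun φ => ?_⟩
  · rw [cr_L hdet']
    exact hcr i j hij
  · have h1 := fac_L hd hdet' (hR2 y) hwr q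
    rwa [hback] at h1
  · obtain ⟨B, T₀, Kp, hz⟩ := hall φ
    have hlim : Tendsto (fun T : ℕ => Kp * (1 / 2 : ℝ) ^ T) atTop (𝓝 (Kp * 0)) :=
      (tendsto_pow_atTop_nhds_zero_of_lt_one (by norm_num) (by norm_num)).const_mul Kp
    rw [mul_zero] at hlim
    obtain ⟨T₁, hT₁⟩ := Filter.eventually_atTop.1 (hlim.eventually (gt_mem_nhds hδ))
    refine ⟨B, max T₀ T₁, max (Kl * Kp) (K * Kp), fun T hT => ?_⟩
    have hpow : (0 : ℝ) ≤ (1 / 2 : ℝ) ^ T := by positivity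
    obtain ⟨z, c', a', hzy, hNDz, ha', hc', hcr', hwr', hcho, hn⟩ :=
      hz T ((le_max_left _ _).trans hT)
    refine ⟨cj mi z, fun i => L 1 0 (-t) 1 (c' i), a', ?_, nd_of_rel hdet' (hR2 z) hNDz, ha',
      fun i => L_ne hdet' (hc' i), fun i j hij => ?_, fun q => fac_L hd hdet' (hR2 z) hwr' q,
      fun i => ?_, fun i => ?_⟩
    · have h1 : z ∈ s := by
        apply hball
        rw [mem_ball, dist_eq_norm]
        exact hzy.trans_lt (hT₁ T ((le_max_right _ _).trans hT))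
      have h2 : y ∈ s := mem_of_mem_nhds hs
      have h3 := hlip.dist_le_mul z h1 y h2
      rw [hback, dist_eq_norm, dist_eq_norm] at h3
      refine h3.trans ((mul_le_mul_of_nonneg_left hzy Kl.2).trans ?_)
      rw [← mul_assoc]
      exact mul_le_mul_of_nonneg_right (le_max_left _ _) hpow
    · rw [cr_L hdet']
      exact hcr' i j hij
    · refine (hKc (c' i) (c₀ i) (hc' i) (hc0 i)).1.trans
        ((mul_le_mul_of_nonneg_left (hcho i) hK0.le).trans ?_)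
      rw [← mul_assoc]
      exact mul_le_mul_of_nonneg_right (le_max_right _ _) hpow
    · obtain ⟨n, hn1, hnB, hn2, hn3⟩ := hn i
      refine ⟨n, hn1, hnB, ?_, fun j hj1 hj2 => ?_⟩
      · rw [hF_iter_L hdet' (hR2 z), cr_L hdet']
        exact hn2
      · rw [hF_iter_L hdet' (hR2 z), wr_L hd hdet' (hR2 z)]
        exact hn3 j hj1 hj2

end Pool.Agent.H928.BT207
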